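import Mathlib
import Pool.Agent.H.MP_2e37b9_an.B

set_option autoImplicit false

namespace Pool.Agent.Results.MP_2e37b9_an.Yes

/-- The space A^∞(G): an element is the sequence of the continuous extensions to the closure of G of the
derivatives of a holomorphic function on G; the topology is the product of the compact-open topologies. -/
def AInf (G : Set ℂ) : Set (ℕ → C(closure G, ℂ)) :=
  {F | ∃ f : ℂ → ℂ, DifferentiableOn ℂ f G ∧ ∀ j z (hz : z ∈ G), F j ⟨z, subset_closure hz⟩ = iteratedDeriv j f z}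

/-- φ restricted to G extends holomorphically to a strictly larger domain -/
def Extends (G : Set ℂ) (φ : C(closure G, ℂ)) : Prop :=
  ∃ (Ω : Set ℂ) (Φ : ℂ → ℂ), IsOpen Ω ∧ IsConnected Ω ∧ G ⊂ Ω ∧ DifferentiableOn ℂ Φ Ω ∧
    ∀ z (hz : z ∈ G), Φ z = φ ⟨z, subset_closure hz⟩

theorem result (G : Set ℂ) (hG : IsOpen G) (hc : IsConnected G) (hr : G = interior (closure G)) :
    ∃ E : Submodule ℂ (ℕ → C(closure G, ℂ)), (E : Set _) ⊆ AInf G ∧ AInf G ⊆ closure E ∧ BaireSpace E ∧
      ∀ F ∈ E, F ≠ 0 → ¬Extends G (F 0) := by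
  obtain ⟨E, a, b, c⟩ := Pool.Agent.H.MP_2e37b9_an.main hG hr.ge hc.nonempty
  refine ⟨E.map (Submodule.subtype _), ?_, fun F hF => ?_, ?_, ?_⟩
  · rintro _ ⟨F, -, rfl⟩
    exact F.2
  · exact image_closure_subset_closure_image continuous_subtype_val ⟨⟨F, hF⟩, a _, rfl⟩
  · exact (Topology.IsEmbedding.subtypeVal.homeomorphImage (E : Set (Pool.Agent.H.MP_2e37b9_an.A hG))).symm.isOpenEmbedding.baireSpace
  rintro _ ⟨F, hF, rfl⟩ k
  exact c F hF fun h => k (congrArg Subtype.val h)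

end Pool.Agent.Results.MP_2e37b9_an.Yes
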